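import Pool.Agent.Q91.PP.Germ

/-!
# Groups of piecewise projective homeomorphisms: only finitely many bad primes
-/

set_option autoImplicit false
set_option linter.unusedSectionVars false

namespace Pool.Agent.Q91.PP

open Filter Topology
open Pool.Agent.H23R2 (residue_finite exists_exponent eq_of_congr finite_inv_primes)

/-- `f` is piecewise projective: there are finitely many real matrices with nonzero determinant
such that `f` is given by one of the corresponding maps `z ↦ (α z + β) / (γ z + δ)` near `-∞` and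
to the right of each point of the line. -/
def PP (f : ℝ → ℝ) : Prop :=
  ∃ S : Finset (Matrix (Fin 2) (Fin 2) ℝ), (∀ M ∈ S, M.det ≠ 0) ∧
    (∃ M ∈ S, ∃ b : ℝ, ∀ z < b, f z * (M 1 0 * z + M 1 1) = M 0 0 * z + M 0 1) ∧
    ∀ a : ℝ, ∃ M ∈ S, ∃ b > a, ∀ z, a < z → z < b →
      f z * (M 1 0 * z + M 1 1) = M 0 0 * z + M 0 1

/-- all germs come from invertible matrices over `A` -/
def IsA (A : Subalgebra ℤ ℝ) (f : Hm) : Prop :=
  ∀ a : Option ℝ, ∃ N : Matrix (Fin 2) (Fin 2) A, IsUnit N.det ∧ Rep (fl a) f N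

variable {A : Subalgebra ℤ ℝ}

lemma IsA.one : IsA A (1 : Hm) := fun a => ⟨1, by rw [Matrix.det_one]; exact isUnit_one, Rep.one _⟩

lemma IsA.mul {f g : Hm} (hf : IsA A f) (hg : IsA A g) : IsA A (f * g) := by
  intro a
  obtain ⟨N, hN, h1⟩ := hg a
  obtain ⟨M, hM, h2⟩ := hf (a.map g)
  exact ⟨M * N, by rw [Matrix.det_mul]; exact hM.mul hN, h2.mul h1 (tendsto_fl g a)⟩

lemma IsA.inv {f : Hm} (hf : IsA A f) : IsA A f⁻¹ := by
  intro a
  obtain ⟨N, hN, h1⟩ := hf (a.map (f⁻¹ : Hm))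
  refine ⟨N.adjugate, ?_, h1.inv (tendsto_fl f⁻¹ a)⟩
  rw [Matrix.det_adjugate]
  exact hN.pow _

lemma IsA.of_subset {f : Hm} {S : Finset (Matrix (Fin 2) (Fin 2) ℝ)}
    (hdet : ∀ M ∈ S, M.det ≠ 0)
    (h1 : ∃ M ∈ S, ∃ b : ℝ, ∀ z < b, f z * (M 1 0 * z + M 1 1) = M 0 0 * z + M 0 1)
    (h2 : ∀ a : ℝ, ∃ M ∈ S, ∃ b > a, ∀ z, a < z → z < b →
      f z * (M 1 0 * z + M 1 1) = M 0 0 * z + M 0 1)
    (hA : ∀ M ∈ S, (∀ i j, M i j ∈ A) ∧ (M.det)⁻¹ ∈ A) : IsA A f := by
  have key : ∀ a : Option ℝ, ∃ M ∈ S, ∀ᶠ z in fl a,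
      f z * (M 1 0 * z + M 1 1) = M 0 0 * z + M 0 1 := by
    intro a
    cases a with
    | none =>
      obtain ⟨M, hM, b, hb⟩ := h1
      refine ⟨M, hM, ?_⟩
      show ∀ᶠ z in atBot, _
      filter_upwards [eventually_lt_atBot b] with z hz
      exact hb z hz
    | some a =>
      obtain ⟨M, hM, b, hb, h⟩ := h2 a
      refine ⟨M, hM, ?_⟩
      show ∀ᶠ z in 𝓝[>] a, _
      filter_upwards [Ioo_mem_nhdsGT hb] with z hz
      exact h z hz.1 hz.2
  intro a
  obtain ⟨M, hM, h⟩ := key a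
  obtain ⟨hent, hinv⟩ := hA M hM
  refine ⟨Matrix.of fun i j => ⟨M i j, hent i j⟩, ?_, ?_⟩
  · have hd : ((Matrix.of fun i j => (⟨M i j, hent i j⟩ : A)).det : ℝ) = M.det := by
      rw [Matrix.det_fin_two, Matrix.det_fin_two]
      simp
    apply IsUnit.of_mul_eq_one (⟨(M.det)⁻¹, hinv⟩ : A)
    apply Subtype.ext
    rw [Subalgebra.coe_mul, hd, Subalgebra.coe_one]
    exact mul_inv_cancel₀ (hdet M hM)
  · filter_upwards [h] with z hz
    exact hz

variable {H : Type*} [Group H]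

/-- a finitely generated group of piecewise projective homeomorphisms is defined over a finitely
generated ring -/
lemma exists_ring [Group.FG H] (ρ : H →* Hm) (h : ∀ x, PP (ρ x)) :
    ∃ s : Finset ℝ, ∀ x : H, IsA (Algebra.adjoin ℤ (s : Set ℝ)) (ρ x) := by
  classical
  obtain ⟨T, hT⟩ := Group.fg_def.1 (inferInstance : Group.FG H)
  choose S hS1 hS2 hS3 using h
  let s : Finset ℝ := T.biUnion fun t => (S t).biUnion fun M =>
    insert (M.det)⁻¹ (Finset.univ.biUnion fun i : Fin 2 => Finset.univ.image fun j : Fin 2 => M i j)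
  refine ⟨s, ?_⟩
  have hT' : ∀ t ∈ T, IsA (Algebra.adjoin ℤ (s : Set ℝ)) (ρ t) := by
    intro t ht
    apply IsA.of_subset (hS1 t) (hS2 t) (hS3 t)
    intro M hM
    constructor
    · intro i j
      apply Algebra.subset_adjoin
      rw [Finset.mem_coe, Finset.mem_biUnion]
      refine ⟨t, ht, ?_⟩
      rw [Finset.mem_biUnion]
      refine ⟨M, hM, ?_⟩
      apply Finset.mem_insert_of_mem
      rw [Finset.mem_biUnion]
      exact ⟨i, Finset.mem_univ _, Finset.mem_image.2 ⟨j, Finset.mem_univ _, rfl⟩⟩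
    · apply Algebra.subset_adjoin
      rw [Finset.mem_coe, Finset.mem_biUnion]
      refine ⟨t, ht, ?_⟩
      rw [Finset.mem_biUnion]
      exact ⟨M, hM, Finset.mem_insert_self _ _⟩
  intro x
  have hx : x ∈ Subgroup.closure (T : Set H) := by rw [hT]; trivial
  induction hx using Subgroup.closure_induction with
  | mem t ht => exact hT' t ht
  | one => rw [map_one]; exact IsA.one
  | mul x y _ _ hx hy => rw [map_mul]; exact hx.mul hy
  | inv x _ hx => rw [map_inv]; exact hx.inv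

lemma nonunit_of_notMem {K : Type*} [Field K] [CharZero K] {s : Finset K} {p : ℕ}
    (hc3 : (p : K)⁻¹ ∉ Algebra.adjoin ℤ (s : Set K)) :
    (p : Algebra.adjoin ℤ (s : Set K)) ∈ nonunits (Algebra.adjoin ℤ (s : Set K)) := by
  intro hu
  apply hc3
  obtain ⟨u, hu⟩ := hu
  have h1 : (p : Algebra.adjoin ℤ (s : Set K)) * (u⁻¹ : (Algebra.adjoin ℤ (s : Set K))ˣ).val = 1 := by
    rw [← hu, Units.mul_inv]
  have h2 : (p : K) * ((u⁻¹ : (Algebra.adjoin ℤ (s : Set K))ˣ).val : K) = 1 := by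
    have := congrArg Subtype.val h1
    simpa using this
  rw [inv_eq_of_mul_eq_one_right h2]
  exact ((u⁻¹ : (Algebra.adjoin ℤ (s : Set K))ˣ).val).2

/-- **Piecewise projective groups**: for all but finitely many primes `p` every element which has
roots of all orders `p ^ k` acts trivially. -/
theorem pp_bad [Group.FG H] (ρ : H →* Hm) (h : ∀ x, PP (ρ x)) :
    {p : ℕ | p.Prime ∧ ∃ g : H, ρ g ≠ 1 ∧ ∀ k : ℕ, ∃ x : H, x ^ p ^ k = g}.Finite := by
  obtain ⟨s, hs⟩ := exists_ring ρ h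
  refine (finite_inv_primes s).subset ?_
  rintro p ⟨hp, g, hg, hroot⟩
  refine ⟨hp, ?_⟩
  by_contra hcon
  have hA : Algebra.FiniteType ℤ (Algebra.adjoin ℤ (s : Set ℝ)) := by
    rw [← Subalgebra.fg_iff_finiteType]
    exact ⟨s, rfl⟩
  obtain ⟨a, ha, hnt⟩ := exists_first hg
  apply hnt
  apply trivial_germ hA hp.pos (nonunit_of_notMem hcon) ha
  intro k
  obtain ⟨x, hx⟩ := hroot k
  exact ⟨ρ x, by rw [← map_pow, hx], hs x a⟩

/-- **Linear groups in characteristic zero**: for all but finitely many primes `p` every element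
which has roots of all orders `p ^ k` has finite order. -/
theorem lin_bad [Group.FG H] {K : Type*} [Field K] [CharZero K] {N : ℕ} (φ : H →* GL (Fin N) K) :
    {p : ℕ | p.Prime ∧ ∃ g : H, (∀ k : ℕ, ∃ x : H, x ^ p ^ k = g) ∧
      ∀ E : ℕ, 0 < E → φ g ^ E ≠ 1}.Finite := by
  classical
  obtain ⟨T, hT⟩ := Group.fg_def.1 (inferInstance : Group.FG H)
  let s : Finset K := T.biUnion fun t => Finset.univ.biUnion fun i : Fin N =>
    Finset.univ.biUnion fun j : Fin N => {(φ t).val i j, (φ t⁻¹).val i j}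
  let R : Subalgebra ℤ K := Algebra.adjoin ℤ (s : Set K)
  have hR : Algebra.FiniteType ℤ R := by
    rw [← Subalgebra.fg_iff_finiteType]
    exact ⟨s, rfl⟩
  have hN : IsNoetherianRing R := Algebra.FiniteType.isNoetherianRing ℤ R
  have hent : ∀ h : H, ∀ i j, (φ h).val i j ∈ R := by
    apply Pool.Agent.H23R2.entries_mem φ (T : Set H) hT R
    · intro t ht i j
      apply Algebra.subset_adjoin
      simp only [s, Finset.coe_biUnion, Set.mem_iUnion]
      exact ⟨t, ht, i, by simp, j, by simp, by simp⟩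
    · intro t ht i j
      apply Algebra.subset_adjoin
      simp only [s, Finset.coe_biUnion, Set.mem_iUnion]
      exact ⟨t, ht, i, by simp, j, by simp, by simp⟩
  let ψ0 : H →* Matrix (Fin N) (Fin N) R :=
    { toFun := fun h => Matrix.of fun i j => ⟨(φ h).val i j, hent h i j⟩
      map_one' := by
        ext i j
        simp only [Matrix.of_apply, map_one, Units.val_one, Matrix.one_apply]
        split_ifs <;> rfl
      map_mul' := by
        intro x y
        ext i j
        simp only [Matrix.of_apply, map_mul, Units.val_mul, Matrix.mul_apply]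
        rw [AddSubmonoidClass.coe_finset_sum]
        rfl }
  let ψ : H →* (Matrix (Fin N) (Fin N) R)ˣ := ψ0.toHomUnits
  have hψ : ∀ x : H, ψ x = 1 → φ x = 1 := by
    intro x hx
    apply Units.ext
    ext i j
    have h1 : (ψ x).val i j = (1 : Matrix (Fin N) (Fin N) R) i j := by rw [hx]; rfl
    have h2 := congrArg Subtype.val h1
    have h3 : ((1 : Matrix (Fin N) (Fin N) R) i j : K) = (1 : Matrix (Fin N) (Fin N) K) i j := by
      rw [Matrix.one_apply, Matrix.one_apply]
      split_ifs <;> rfl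
    rw [h3] at h2
    exact h2
  refine (finite_inv_primes s).subset ?_
  rintro p ⟨hp, g, hroot, hg⟩
  refine ⟨hp, ?_⟩
  by_contra hcon
  obtain ⟨m, hm, hpm⟩ := exists_max_ideal_of_mem_nonunits (nonunit_of_notMem hcon)
  obtain ⟨q, _, _, hfin⟩ := residue_finite R m
  obtain ⟨E, hE0, hE⟩ := exists_exponent (n := Fin N) m p hpm hfin
  apply hg E hE0
  rw [← map_pow]
  apply hψ
  apply Units.ext
  apply eq_of_congr m hm.ne_top
  intro j a b
  obtain ⟨x, hx⟩ := hroot j
  rw [← hx, ← pow_mul, mul_comm (p ^ j) E, map_pow, Units.val_pow_eq_pow_val]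
  exact hE (ψ x) j a b

end Pool.Agent.Q91.PP
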