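import Pool.Agent.H23R2.Lin

/-!
# Germs of piecewise projective homeomorphisms of the line
-/

set_option autoImplicit false
set_option linter.unusedSectionVars false

namespace Pool.Agent.Q91.PP

open Filter Topology
open Pool.Agent.H23R2 (residue_finite exists_exponent eq_of_congr finite_inv_primes)

/-- increasing homeomorphisms of the line -/
abbrev Hm := ℝ ≃o ℝ

/-- the filter of right neighbourhoods of a point of `[-∞, ∞)` -/
def fl : Option ℝ → Filter ℝ
  | none => atBot
  | some a => 𝓝[>] a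

lemma tendsto_fl (f : Hm) (a : Option ℝ) : Tendsto f (fl a) (fl (a.map f)) := by
  cases a with
  | none => exact f.tendsto_atBot
  | some a =>
    show Tendsto f (𝓝[>] a) (𝓝[>] (f a))
    apply tendsto_nhdsWithin_iff.2
    refine ⟨(f.continuous.tendsto a).mono_left nhdsWithin_le_nhds, ?_⟩
    filter_upwards [self_mem_nhdsWithin] with z hz
    exact f.strictMono hz

instance neBot_fl (a : Option ℝ) : (fl a).NeBot := by
  cases a with
  | none => exact (inferInstance : (atBot : Filter ℝ).NeBot)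
  | some a => exact (inferInstance : (𝓝[>] a).NeBot)

/-- properties which hold on a filter `fl a` hold for infinitely many points -/
lemma infinite_of_eventually {a : Option ℝ} {P : ℝ → Prop} (h : ∀ᶠ z in fl a, P z) :
    {z | P z}.Infinite := by
  cases a with
  | none =>
    obtain ⟨b, hb⟩ := eventually_atBot.1 h
    exact (Set.Iic_infinite b).mono hb
  | some a =>
    obtain ⟨y, hy, hsub⟩ := (mem_nhdsGT_iff_exists_Ioo_subset).1 h
    exact (Set.Ioo_infinite hy).mono hsub

section rep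

variable {A : Subalgebra ℤ ℝ}

/-- the matrix `N` represents `f` along `l` -/
def Rep (l : Filter ℝ) (f : ℝ → ℝ) (N : Matrix (Fin 2) (Fin 2) A) : Prop :=
  ∀ᶠ z in l, f z * ((N 1 0 : ℝ) * z + (N 1 1 : ℝ)) = (N 0 0 : ℝ) * z + (N 0 1 : ℝ)

lemma Rep.one (l : Filter ℝ) : Rep l ((1 : Hm) : ℝ → ℝ) (1 : Matrix (Fin 2) (Fin 2) A) := by
  apply Eventually.of_forall
  intro z
  simp

lemma Rep.mul {l l' : Filter ℝ} {f g : Hm} {M N : Matrix (Fin 2) (Fin 2) A}
    (hf : Rep l' f M) (hg : Rep l g N) (ht : Tendsto g l l') : Rep l ((f * g : Hm)) (M * N) := by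
  have h := ht.eventually hf
  filter_upwards [h, hg] with z h2 h1
  have e : (f * g) z = f (g z) := rfl
  rw [e]
  simp only [Matrix.mul_apply, Fin.sum_univ_two, Subalgebra.coe_add, Subalgebra.coe_mul]
  linear_combination ((N 1 0 : ℝ) * z + N 1 1) * h2 - (f (g z) * M 1 0 - M 0 0) * h1

lemma Rep.inv {l l' : Filter ℝ} {f : Hm} {N : Matrix (Fin 2) (Fin 2) A}
    (hf : Rep l f N) (ht : Tendsto (f⁻¹ : Hm) l' l) : Rep l' ((f⁻¹ : Hm)) N.adjugate := by
  have h := ht.eventually hf
  filter_upwards [h] with w hw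
  have e : f ((f⁻¹ : Hm) w) = w := f.apply_symm_apply w
  rw [e] at hw
  rw [Matrix.adjugate_fin_two]
  simp only [Matrix.of_apply, Matrix.cons_val', Matrix.cons_val_zero, Matrix.cons_val_one,
    Subalgebra.coe_neg]
  linear_combination (-1 : ℝ) * hw

lemma Rep.pow {a : Option ℝ} {f : Hm} (ha : a.map f = a) {N : Matrix (Fin 2) (Fin 2) A}
    (hf : Rep (fl a) f N) (n : ℕ) : Rep (fl a) ((f ^ n : Hm)) (N ^ n) := by
  induction n with
  | zero =>
    rw [pow_zero, pow_zero]
    exact Rep.one _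
  | succ n ih =>
    rw [pow_succ, pow_succ]
    apply Rep.mul ih hf
    have h := tendsto_fl f a
    rw [ha] at h
    exact h

lemma quad_zero {p q r : ℝ} (h : {z : ℝ | p * z ^ 2 + q * z + r = 0}.Infinite) :
    p = 0 ∧ q = 0 ∧ r = 0 := by
  have h1 : (Polynomial.C p * Polynomial.X ^ 2 + Polynomial.C q * Polynomial.X +
      Polynomial.C r : Polynomial ℝ) = 0 := by
    apply Polynomial.eq_zero_of_infinite_isRoot
    apply h.mono
    intro z hz
    have hz' : p * z ^ 2 + q * z + r = 0 := hz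
    show Polynomial.IsRoot _ z
    simp [Polynomial.IsRoot, hz']
  refine ⟨?_, ?_, ?_⟩
  · have := congrArg (fun P => Polynomial.coeff P 2) h1
    simpa using this
  · have := congrArg (fun P => Polynomial.coeff P 1) h1
    simpa using this
  · have := congrArg (fun P => Polynomial.coeff P 0) h1
    simpa using this

/-- two matrices which represent the same function are proportional -/
lemma Rep.prop {a : Option ℝ} {f : ℝ → ℝ} {M X : Matrix (Fin 2) (Fin 2) A}
    (hM : Rep (fl a) f M) (hX : Rep (fl a) f X) :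
    ∃ c : A, X.det • M = c • X := by
  have hinf : {z : ℝ | ((M 0 0 : ℝ) * X 1 0 - X 0 0 * M 1 0) * z ^ 2 +
      ((M 0 0 : ℝ) * X 1 1 + M 0 1 * X 1 0 - X 0 0 * M 1 1 - X 0 1 * M 1 0) * z +
      ((M 0 1 : ℝ) * X 1 1 - X 0 1 * M 1 1) = 0}.Infinite := by
    apply infinite_of_eventually (a := a)
    filter_upwards [hM, hX] with z h1 h2
    linear_combination (M 1 0 * z + M 1 1 : ℝ) * h2 - (X 1 0 * z + X 1 1) * h1
  obtain ⟨h1, h2, h3⟩ := quad_zero hinf
  have g1 : M 0 0 * X 1 0 - X 0 0 * M 1 0 = 0 := by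
    apply Subtype.ext
    simpa using h1
  have g2 : M 0 0 * X 1 1 + M 0 1 * X 1 0 - X 0 0 * M 1 1 - X 0 1 * M 1 0 = 0 := by
    apply Subtype.ext
    simpa using h2
  have g3 : M 0 1 * X 1 1 - X 0 1 * M 1 1 = 0 := by
    apply Subtype.ext
    simpa using h3
  refine ⟨X 1 1 * M 0 0 - X 0 1 * M 1 0, ?_⟩
  have hd : X.det = X 0 0 * X 1 1 - X 0 1 * X 1 0 := Matrix.det_fin_two X
  ext1 i j
  fin_cases i <;> fin_cases j
  · show X.det * M 0 0 = (X 1 1 * M 0 0 - X 0 1 * M 1 0) * X 0 0
    rw [hd]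
    linear_combination (-X 0 1) * g1
  · show X.det * M 0 1 = (X 1 1 * M 0 0 - X 0 1 * M 1 0) * X 0 1
    rw [hd]
    linear_combination X 0 0 * g3 - X 0 1 * g2
  · show X.det * M 1 0 = (X 1 1 * M 0 0 - X 0 1 * M 1 0) * X 1 0
    rw [hd]
    linear_combination (-X 1 1) * g1
  · show X.det * M 1 1 = (X 1 1 * M 0 0 - X 0 1 * M 1 0) * X 1 1
    rw [hd]
    linear_combination X 1 0 * g3 - X 1 1 * g2

/-- scalar matrices represent the identity -/
lemma Rep.eventually_id {l : Filter ℝ} {f : ℝ → ℝ} {N : Matrix (Fin 2) (Fin 2) A}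
    (h : Rep l f N) (h1 : N 0 1 = 0) (h2 : N 1 0 = 0) (h3 : N 0 0 = N 1 1) (h0 : N 1 1 ≠ 0) :
    ∀ᶠ z in l, f z = z := by
  filter_upwards [h] with z hz
  rw [h1, h2, h3] at hz
  have h4 : (N 1 1 : ℝ) ≠ 0 := by
    intro hc
    exact h0 (Subtype.ext hc)
  apply mul_right_cancel₀ h4
  simp only [ZeroMemClass.coe_zero, zero_mul, zero_add, add_zero] at hz
  linear_combination hz

end rep

section order

lemma lt_pow_of_lt {f : Hm} {z : ℝ} (h : z < f z) (n : ℕ) : z < (f ^ (n + 1) : Hm) z := by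
  induction n with
  | zero => simpa using h
  | succ n ih =>
    have e : (f ^ (n + 1 + 1) : Hm) z = f ((f ^ (n + 1) : Hm) z) := by
      rw [pow_succ' f (n + 1)]
      rfl
    rw [e]
    exact h.trans (f.strictMono ih)

lemma pow_lt_of_lt {f : Hm} {z : ℝ} (h : f z < z) (n : ℕ) : (f ^ (n + 1) : Hm) z < z := by
  induction n with
  | zero => simpa using h
  | succ n ih =>
    have e : (f ^ (n + 1 + 1) : Hm) z = f ((f ^ (n + 1) : Hm) z) := by
      rw [pow_succ' f (n + 1)]
      rfl
    rw [e]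
    exact (f.strictMono ih).trans h

lemma fix_of_pow {f : Hm} {z : ℝ} {n : ℕ} (hn : 0 < n) (h : (f ^ n : Hm) z = z) : f z = z := by
  obtain ⟨n, rfl⟩ := Nat.exists_eq_succ_of_ne_zero hn.ne'
  rcases lt_trichotomy (f z) z with h1 | h1 | h1
  · exact absurd h (ne_of_lt (pow_lt_of_lt h1 n))
  · exact h1
  · exact absurd h (ne_of_gt (lt_pow_of_lt h1 n))

/-- the first point of the support, in `[-∞, ∞)` -/
lemma exists_first {g : Hm} (hg : g ≠ 1) : ∃ a : Option ℝ, a.map g = a ∧
    ¬ ∀ᶠ z in fl a, g z = z := by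
  by_cases h : ∀ᶠ z in fl none, g z = z
  · obtain ⟨b, hb⟩ := eventually_atBot.1 h
    let E : Set ℝ := {t | ∀ z ≤ t, g z = z}
    have hne : E.Nonempty := ⟨b, hb⟩
    have hbd : BddAbove E := by
      by_contra hc
      apply hg
      ext z
      rw [not_bddAbove_iff] at hc
      obtain ⟨t, ht, hzt⟩ := hc z
      exact ht z hzt.le
    set s := sSup E with hs
    have hlt : ∀ z < s, g z = z := by
      intro z hz
      obtain ⟨t, ht, hzt⟩ := exists_lt_of_lt_csSup hne hz
      exact ht z hzt.le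
    have hfix : g s = s := by
      have hcl : IsClosed {x : ℝ | g x = x} := isClosed_eq g.continuous continuous_id
      exact hcl.closure_subset_iff.2 (fun x (hx : x ∈ Set.Iio s) => hlt x hx)
        (by rw [closure_Iio]; exact Set.mem_Iic.2 le_rfl)
    refine ⟨some s, by rw [Option.map_some, hfix], ?_⟩
    intro hev
    obtain ⟨y, hy, hsub⟩ := (mem_nhdsGT_iff_exists_Ioo_subset).1 hev
    have hy' : s < y := hy
    have hmem : (s + y) / 2 ∈ E := by
      intro z hz
      rcases lt_trichotomy z s with h1 | h1 | h1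
      · exact hlt z h1
      · rw [h1, hfix]
      · exact hsub ⟨h1, by linarith⟩
    have := le_csSup hbd hmem
    linarith
  · exact ⟨none, rfl, h⟩

lemma map_root {a : Option ℝ} {x g : Hm} {n : ℕ} (hn : 0 < n) (hx : x ^ n = g)
    (ha : a.map g = a) : a.map x = a := by
  cases a with
  | none => rfl
  | some a =>
    rw [Option.map_some, Option.some_inj] at ha ⊢
    exact fix_of_pow hn (by rw [hx]; exact ha)

end order

section germ

variable {A : Subalgebra ℤ ℝ}

lemma mem_of_unit_mul {m : Ideal A} {u x : A} (hu : IsUnit u) (h : u * x ∈ m) : x ∈ m := by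
  obtain ⟨v, hv⟩ := hu.exists_left_inv
  have := m.mul_mem_left v h
  rwa [← mul_assoc, hv, one_mul] at this

/-- an element with roots of order `p ^ k` for all `k` has trivial germs at its fixed points -/
lemma trivial_germ (hA : Algebra.FiniteType ℤ A) {p : ℕ} (hp0 : 0 < p)
    (hp : (p : A) ∈ nonunits A)
    {a : Option ℝ} {g : Hm} (ha : a.map g = a)
    (hroot : ∀ k : ℕ, ∃ x : Hm, x ^ p ^ k = g ∧
      ∃ N : Matrix (Fin 2) (Fin 2) A, IsUnit N.det ∧ Rep (fl a) x N) :
    ∀ᶠ z in fl a, g z = z := by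
  have hN : IsNoetherianRing A := Algebra.FiniteType.isNoetherianRing ℤ A
  obtain ⟨m, hm, hpm⟩ := exists_max_ideal_of_mem_nonunits hp
  obtain ⟨q, _, _, hfin⟩ := residue_finite A m
  obtain ⟨E, hE0, hE⟩ := exists_exponent (n := Fin 2) m p hpm hfin
  obtain ⟨x0, hx0, M, hMu, hM⟩ := hroot 0
  rw [pow_zero, pow_one] at hx0
  rw [hx0] at hM
  have key : ∀ k : ℕ, (M ^ E) 0 1 ∈ m ^ (k + 1) ∧ (M ^ E) 1 0 ∈ m ^ (k + 1) ∧
      (M ^ E) 0 0 - (M ^ E) 1 1 ∈ m ^ (k + 1) := by
    intro k
    obtain ⟨x, hx, N, hNu, hN⟩ := hroot k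
    have hax : a.map x = a := map_root (Nat.pow_pos hp0) hx ha
    have hX : Rep (fl a) g (N ^ p ^ k) := by
      have := hN.pow hax (p ^ k)
      rwa [hx] at this
    obtain ⟨c, hc⟩ := hM.prop hX
    have hdu : IsUnit ((N ^ p ^ k).det ^ E) := by
      rw [Matrix.det_pow]
      exact (hNu.pow _).pow _
    have h1 : (N ^ p ^ k).det ^ E • M ^ E = c ^ E • (N ^ p ^ k) ^ E := by
      rw [← smul_pow, ← smul_pow, hc]
    have hNu' : IsUnit N := (Matrix.isUnit_iff_isUnit_det N).2 hNu
    obtain ⟨U, hU⟩ := hNu'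
    have h2 : ∀ i j, (((N ^ p ^ k) ^ E - 1 : Matrix (Fin 2) (Fin 2) A)) i j ∈ m ^ (k + 1) := by
      intro i j
      have h3 := hE U k i j
      rw [hU] at h3
      rwa [← pow_mul, mul_comm (p ^ k) E]
    have hent : ∀ i j, (N ^ p ^ k).det ^ E * (M ^ E) i j = c ^ E * ((N ^ p ^ k) ^ E) i j := by
      intro i j
      have := congrFun (congrFun h1 i) j
      simpa [Matrix.smul_apply] using this
    refine ⟨?_, ?_, ?_⟩
    · apply mem_of_unit_mul hdu
      rw [hent]
      apply Ideal.mul_mem_left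
      have := h2 0 1
      simpa using this
    · apply mem_of_unit_mul hdu
      rw [hent]
      apply Ideal.mul_mem_left
      have := h2 1 0
      simpa using this
    · apply mem_of_unit_mul hdu
      rw [mul_sub, hent, hent, ← mul_sub]
      apply Ideal.mul_mem_left
      have h3 := Ideal.sub_mem _ (h2 0 0) (h2 1 1)
      simpa using h3
  have hz : ∀ y : A, (∀ k : ℕ, y ∈ m ^ (k + 1)) → y = 0 := by
    intro y hy
    have h1 : y ∈ ⨅ i, m ^ i := by
      rw [Ideal.mem_iInf]
      intro i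
      cases i with
      | zero => simp
      | succ j => exact hy j
    rw [Ideal.iInf_pow_eq_bot_of_isDomain m hm.ne_top] at h1
    simpa using h1
  have e1 := hz _ (fun k => (key k).1)
  have e2 := hz _ (fun k => (key k).2.1)
  have e3 := sub_eq_zero.1 (hz _ (fun k => (key k).2.2))
  have hME : Rep (fl a) (g ^ E : Hm) (M ^ E) := hM.pow ha E
  have hdet : (M ^ E).det ≠ 0 := by
    rw [Matrix.det_pow]
    exact (hMu.pow E).ne_zero
  have h0 : (M ^ E) 1 1 ≠ 0 := by
    intro hc
    apply hdet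
    rw [Matrix.det_fin_two, e1, e2, hc]
    simp
  filter_upwards [hME.eventually_id e1 e2 e3 h0] with z hz
  exact fix_of_pow hE0 hz

end germ

end Pool.Agent.Q91.PP
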