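import Pool.Agent.Q91.PP.Root
import Pool.Agent.H26R2.IdemLI.NoDiv

/-!
# Groups of piecewise projective homeomorphisms over a finitely generated ring
-/

set_option autoImplicit false
set_option linter.unusedSectionVars false

namespace Pool.Agent.Q91.PP

open Filter Topology
open Pool.Agent.H23R2 (residue_finite exists_exponent eq_of_congr finite_inv_primes)
open Pool.Agent.H26R2.IdemLI (FinOrd AlmostDiv ChainFin RootBounded chainFin_of_rootBounded)

section ovr

variable {H : Type*} [Group H]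

theorem pp_bad_over (s : Finset ℝ) (ρ : H →* Hm)
    (hs : ∀ x, IsA (Algebra.adjoin ℤ (s : Set ℝ)) (ρ x)) :
    {p : ℕ | p.Prime ∧ ∃ g : H, ρ g ≠ 1 ∧ ∀ k : ℕ, ∃ x : H, x ^ p ^ k = g}.Finite := by
  refine (finite_inv_primes s).subset ?_
  rintro p ⟨hp, g, hg, hroot⟩
  refine ⟨hp, ?_⟩
  by_contra hcon
  have hA : Algebra.FiniteType ℤ (Algebra.adjoin ℤ (s : Set ℝ)) := by
    rw [← Subalgebra.fg_iff_finiteType]
    exact ⟨s, rfl⟩
  obtain ⟨a, ha, hnt⟩ := exists_first hg
  apply hnt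
  apply trivial_germ hA hp.pos (nonunit_of_notMem hcon) ha
  intro k
  obtain ⟨x, hx⟩ := hroot k
  exact ⟨ρ x, by rw [← map_pow, hx], hs x a⟩

theorem lin_bad_over {K : Type*} [Field K] [CharZero K] {N : ℕ} (s : Finset K)
    (φ : H →* GL (Fin N) K)
    (hent : ∀ h : H, ∀ i j, (φ h).val i j ∈ Algebra.adjoin ℤ (s : Set K)) :
    {p : ℕ | p.Prime ∧ ∃ g : H, (∀ k : ℕ, ∃ x : H, x ^ p ^ k = g) ∧
      ∀ E : ℕ, 0 < E → φ g ^ E ≠ 1}.Finite := by
  classical
  let R : Subalgebra ℤ K := Algebra.adjoin ℤ (s : Set K)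
  have hR : Algebra.FiniteType ℤ R := by
    rw [← Subalgebra.fg_iff_finiteType]
    exact ⟨s, rfl⟩
  have hN : IsNoetherianRing R := Algebra.FiniteType.isNoetherianRing ℤ R
  let ψ0 : H →* Matrix (Fin N) (Fin N) R :=
    { toFun := fun h => Matrix.of fun i j => ⟨(φ h).val i j, hent h i j⟩
      map_one' := by
        ext i j
        simp only [Matrix.of_apply, map_one, Units.val_one, Matrix.one_apply]
        split_ifs <;> rfl
      map_mul' := by
        intro x y
        ext i j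
        simp only [Matrix.of_apply, map_mul, Units.val_mul, Matrix.mul_apply]
        rw [AddSubmonoidClass.coe_finsetSum]
        rfl }
  let ψ : H →* (Matrix (Fin N) (Fin N) R)ˣ := ψ0.toHomUnits
  have hψ : ∀ x : H, ψ x = 1 → φ x = 1 := by
    intro x hx
    apply Units.ext
    ext i j
    have h1 : (ψ x).val i j = (1 : Matrix (Fin N) (Fin N) R) i j := by rw [hx]; rfl
    have h2 := congrArg Subtype.val h1
    have h3 : ((1 : Matrix (Fin N) (Fin N) R) i j : K) = (1 : Matrix (Fin N) (Fin N) K) i j := by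
      rw [Matrix.one_apply, Matrix.one_apply]
      split_ifs <;> rfl
    rw [h3] at h2
    exact h2
  refine (finite_inv_primes s).subset ?_
  rintro p ⟨hp, g, hroot, hg⟩
  refine ⟨hp, ?_⟩
  by_contra hcon
  obtain ⟨m, hm, hpm⟩ := exists_max_ideal_of_mem_nonunits (nonunit_of_notMem hcon)
  obtain ⟨q, _, _, hfin⟩ := residue_finite R m
  obtain ⟨E, hE0, hE⟩ := exists_exponent (n := Fin N) m p hpm hfin
  apply hg E hE0
  rw [← map_pow]
  apply hψ
  apply Units.ext
  apply eq_of_congr m hm.ne_top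
  intro j a b
  obtain ⟨x, hx⟩ := hroot j
  rw [← hx, ← pow_mul, mul_comm (p ^ j) E, map_pow, Units.val_pow_eq_pow_val]
  exact hE (ψ x) j a b

/-- `A` acts by piecewise projective homeomorphisms and linearly over finitely generated rings,
with a periodic joint kernel. -/
def ProjType.{w, z} (A : Type w) [Group A] : Prop :=
  ∃ (k : ℕ) (ρ : Fin k → A →* Hm) (s : Finset ℝ) (K : Type z) (_ : Field K) (_ : CharZero K)
    (N : ℕ) (φ : A →* GL (Fin N) K) (t : Finset K),
    (∀ i x, IsA (Algebra.adjoin ℤ (s : Set ℝ)) (ρ i x)) ∧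
    (∀ x i j, (φ x).val i j ∈ Algebra.adjoin ℤ (t : Set K)) ∧
    ∀ x : A, (∀ i, ρ i x = 1) → φ x = 1 → FinOrd x

theorem rootBounded_proj.{w, z} {A : Type w} [Group A] (h : ProjType.{w, z} A) :
    RootBounded A := by
  obtain ⟨n, ρ, s, K, _, _, N, φ, t, hρ, hφ, hker⟩ := h
  intro a ha m
  by_contra hcon
  push Not at hcon
  have hf1 : (⋃ i : Fin n, {p : ℕ | p.Prime ∧ ∃ g : A, ρ i g ≠ 1 ∧
      ∀ k : ℕ, ∃ x : A, x ^ p ^ k = g}).Finite :=
    Set.finite_iUnion fun i => pp_bad_over s (ρ i) (hρ i)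
  have hf2 := lin_bad_over t φ hφ
  obtain ⟨p, ⟨hp, hmp⟩, hpb⟩ := ((Nat.infinite_setOfPred_prime.sdiff (Set.finite_Iic m)).sdiff
    (hf1.union hf2)).nonempty
  have hroot : ∀ k : ℕ, ∃ x : A, x ^ p ^ k = a := hcon p hp (not_le.1 hmp)
  have h1 : ∀ i, ρ i a = 1 := by
    intro i
    by_contra hc
    exact hpb (Or.inl (Set.mem_iUnion.2 ⟨i, hp, a, hc, hroot⟩))
  have h2 : ∃ E : ℕ, 0 < E ∧ φ a ^ E = 1 := by
    by_contra hc
    push Not at hc
    exact hpb (Or.inr ⟨hp, a, hroot, hc⟩)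
  obtain ⟨E, hE, h3⟩ := h2
  apply ha
  have h4 : FinOrd (a ^ E) := by
    apply hker
    · intro i
      rw [map_pow, h1 i, one_pow]
    · rw [map_pow, h3]
  exact Pool.Agent.H26R2.IdemLI.FinOrd.of_pow hE h4

theorem chainFin_proj.{w, z} {A : Type w} [Group A] (h : ProjType.{w, z} A) : ChainFin A :=
  chainFin_of_rootBounded A (rootBounded_proj h)

/-- the property passes to subgroups -/
lemma ProjType.comap.{w, z} {A B : Type w} [Group A] [Group B] (h : ProjType.{w, z} A)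
    (f : B →* A) (hf : ∀ x, f x = 1 → FinOrd x) : ProjType.{w, z} B := by
  obtain ⟨n, ρ, s, K, _, _, N, φ, t, hρ, hφ, hker⟩ := h
  refine ⟨n, fun i => (ρ i).comp f, s, K, inferInstance, inferInstance, N, φ.comp f, t,
    fun i x => hρ i (f x), fun x => hφ (f x), ?_⟩
  intro x h1 h2
  obtain ⟨m, hm, h3⟩ := hker (f x) h1 h2
  have h4 : FinOrd (x ^ m) := by
    apply hf
    rw [map_pow, h3]
  exact Pool.Agent.H26R2.IdemLI.FinOrd.of_pow hm h4

/-- finitely generated groups are defined over finitely generated rings -/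
theorem projType_of_fg.{w, z} {A : Type w} [Group A] [Group.FG A] {k : ℕ}
    (ρ : Fin k → A →* Hm) (hρ : ∀ i x, PP (ρ i x)) {K : Type z} [Field K] [CharZero K] {N : ℕ}
    (φ : A →* GL (Fin N) K) (hker : ∀ x : A, (∀ i, ρ i x = 1) → φ x = 1 → FinOrd x) :
    ProjType.{w, z} A := by
  classical
  choose s hs using fun i => exists_ring (ρ i) (hρ i)
  obtain ⟨T, hT⟩ := Group.fg_def.1 (inferInstance : Group.FG A)
  let t : Finset K := T.biUnion fun t => Finset.univ.biUnion fun i : Fin N =>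
    Finset.univ.biUnion fun j : Fin N => {(φ t).val i j, (φ t⁻¹).val i j}
  have hent : ∀ h : A, ∀ i j, (φ h).val i j ∈ Algebra.adjoin ℤ (t : Set K) := by
    apply Pool.Agent.H23R2.entries_mem φ (T : Set A) hT
    · intro u hu i j
      apply Algebra.subset_adjoin
      simp only [t, Finset.coe_biUnion, Set.mem_iUnion]
      exact ⟨u, hu, i, by simp, j, by simp, by simp⟩
    · intro u hu i j
      apply Algebra.subset_adjoin
      simp only [t, Finset.coe_biUnion, Set.mem_iUnion]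
      exact ⟨u, hu, i, by simp, j, by simp, by simp⟩
  refine ⟨k, ρ, Finset.univ.biUnion s, K, inferInstance, inferInstance, N, φ, t, ?_, hent, hker⟩
  intro i x a
  have hle : Algebra.adjoin ℤ (s i : Set ℝ) ≤
      Algebra.adjoin ℤ ((Finset.univ.biUnion s : Finset ℝ) : Set ℝ) := by
    apply Algebra.adjoin_mono
    intro y hy
    rw [Finset.coe_biUnion, Set.mem_iUnion₂]
    exact ⟨i, Finset.mem_coe.2 (Finset.mem_univ i), hy⟩
  obtain ⟨M, hM, hr⟩ := hs i x a
  refine ⟨M.map (Subalgebra.inclusion hle), ?_, ?_⟩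
  · have h1 : (M.map (Subalgebra.inclusion hle)).det = Subalgebra.inclusion hle M.det := by
      rw [AlgHom.map_det]
      rfl
    rw [h1]
    exact hM.map _
  · filter_upwards [hr] with z hz
    exact hz

end ovr

section conj

/-- an element which is conjugate to its `p ^ j`-th power is infinitely `p`-divisible -/
lemma root_of_conj {H : Type*} [Group H] {p j : ℕ} {g c : H}
    (h : c * g * c⁻¹ = g ^ p ^ j) (m : ℕ) : (c⁻¹ ^ m * g * (c⁻¹ ^ m)⁻¹) ^ p ^ (j * m) = g := by
  induction m with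
  | zero => simp
  | succ m ih =>
    have h1 : g = c⁻¹ * g ^ p ^ j * c := by
      rw [← h]
      group
    have h2 : (c⁻¹ ^ (m + 1) * g * (c⁻¹ ^ (m + 1))⁻¹) ^ p ^ j =
        c⁻¹ ^ m * g * (c⁻¹ ^ m)⁻¹ := by
      rw [conj_pow]
      conv_rhs => rw [h1]
      rw [pow_succ]
      group
    calc (c⁻¹ ^ (m + 1) * g * (c⁻¹ ^ (m + 1))⁻¹) ^ p ^ (j * (m + 1))
        = ((c⁻¹ ^ (m + 1) * g * (c⁻¹ ^ (m + 1))⁻¹) ^ p ^ j) ^ p ^ (j * m) := by
          rw [← pow_mul, ← pow_add, show j * (m + 1) = j + j * m by ring]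
      _ = g := by rw [h2, ih]

lemma divisible_of_conj {H : Type*} [Group H] {p j : ℕ} (hj : 1 ≤ j) {g : H}
    (h : IsConj g (g ^ p ^ j)) (k : ℕ) : ∃ x : H, x ^ p ^ k = g := by
  obtain ⟨c, hc⟩ := isConj_iff.1 h
  have h2 := root_of_conj hc k
  obtain ⟨l, hl⟩ := Nat.exists_eq_add_of_le (Nat.le_mul_of_pos_left k hj : k ≤ j * k)
  rw [hl, add_comm, pow_add, pow_mul] at h2
  exact ⟨_, h2⟩

/-- `g` is detected by an action by piecewise projective homeomorphisms, or by a linear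
representation in characteristic zero which maps it to an element of infinite order. -/
def Detected.{w, z} {H : Type w} [Group H] (g : H) : Prop :=
  (∃ ρ : H →* Hm, (∀ x, PP (ρ x)) ∧ ρ g ≠ 1) ∨
  ∃ (K : Type z) (_ : Field K) (_ : CharZero K) (N : ℕ) (φ : H →* GL (Fin N) K),
    ∀ E : ℕ, 0 < E → φ g ^ E ≠ 1

/-- detected elements of finitely generated groups are not conjugate to their `p ^ j`-th powers,
for almost all primes `p` -/
theorem bad_of_detected.{w, z} {H : Type w} [Group H] [Group.FG H] {g : H}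
    (hg : Detected.{w, z} g) :
    {p : ℕ | p.Prime ∧ ∃ j, 1 ≤ j ∧ IsConj g (g ^ p ^ j)}.Finite := by
  rcases hg with ⟨ρ, hρ, h1⟩ | ⟨K, _, _, N, φ, h1⟩
  · apply (pp_bad ρ hρ).subset
    rintro p ⟨hp, j, hj, hc⟩
    exact ⟨hp, g, h1, divisible_of_conj hj hc⟩
  · apply (lin_bad φ).subset
    rintro p ⟨hp, j, hj, hc⟩
    exact ⟨hp, g, divisible_of_conj hj hc, h1⟩

theorem inf_primes.{w, z} {H : Type w} [Group H] [Group.FG H] {g : H}
    (hg : Detected.{w, z} g) :
    {p : ℕ | p.Prime ∧ ∀ j, 1 ≤ j → ¬ IsConj g (g ^ p ^ j)}.Infinite := by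
  apply (Nat.infinite_setOfPred_prime.sdiff (bad_of_detected.{w, z} hg)).mono
  rintro p ⟨hp, hb⟩
  exact ⟨hp, fun j hj hc => hb ⟨hp, j, hj, hc⟩⟩

end conj

end Pool.Agent.Q91.PP
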