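import Pool.Agent.Q91.PP.Bad

/-!
# Groups of piecewise projective homeomorphisms: roots are unique
-/

set_option autoImplicit false
set_option linter.unusedSectionVars false

namespace Pool.Agent.Q91.PP

open Filter Topology
open Pool.Agent.H23R2 (residue_finite exists_exponent eq_of_congr finite_inv_primes)

/-- `z` is at most `a`, for `a` in `[-∞, ∞)` -/
def below : Option ℝ → ℝ → Prop
  | none, _ => False
  | some a, z => z ≤ a

/-- `f` is the identity up to `a`, and moves all points right after `a` to the right -/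
def PosAt (a : Option ℝ) (f : Hm) : Prop := (∀ z, below a z → f z = z) ∧ ∀ᶠ z in fl a, z < f z

/-- positive elements of the order -/
def Pos (f : Hm) : Prop := ∃ a, PosAt a f

lemma not_pos_one : ¬ Pos 1 := by
  rintro ⟨a, _, h⟩
  obtain ⟨z, hz⟩ := h.exists
  exact lt_irrefl z hz

lemma PosAt.fix {a : Option ℝ} {f : Hm} (h : PosAt a f) : a.map f = a := by
  cases a with
  | none => rfl
  | some a => rw [Option.map_some, h.1 a (show a ≤ a from le_rfl)]

lemma Pos.mul {f g : Hm} (hf : Pos f) (hg : Pos g) : Pos (f * g) := by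
  obtain ⟨a, ha1, ha2⟩ := hf
  obtain ⟨b, hb⟩ := hg
  have hbm := hb.fix
  obtain ⟨hb1, hb2⟩ := hb
  have e : ∀ z, (f * g) z = f (g z) := fun z => rfl
  have hT := tendsto_fl g b
  rw [hbm] at hT
  -- compare `a` and `b`
  cases a with
  | none =>
    cases b with
    | none =>
      refine ⟨none, fun z hz => hz.elim, ?_⟩
      filter_upwards [hb2, hT.eventually ha2] with z h1 h2
      rw [e]
      exact h1.trans h2
    | some b =>
      refine ⟨none, fun z hz => hz.elim, ?_⟩
      show ∀ᶠ z in atBot, _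
      have ha2' : ∀ᶠ z in atBot, z < f z := ha2
      filter_upwards [ha2', eventually_le_atBot b] with z h1 h2
      rw [e, hb1 z h2]
      exact h1
  | some a =>
    cases b with
    | none =>
      refine ⟨none, fun z hz => hz.elim, ?_⟩
      show ∀ᶠ z in atBot, _
      have hb2' : ∀ᶠ z in atBot, z < g z := hb2
      have hT' : Tendsto g atBot atBot := hT
      filter_upwards [hb2', hT'.eventually (eventually_le_atBot a)] with z h1 h2
      rw [e, ha1 (g z) h2]
      exact h1
    | some b =>
      rcases lt_trichotomy a b with h | h | h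
      · refine ⟨some a, fun z hz => ?_, ?_⟩
        · have hz' : z ≤ a := hz
          rw [e, hb1 z (show z ≤ b from hz'.trans h.le), ha1 z hz]
        · show ∀ᶠ z in 𝓝[>] a, _
          have ha2' : ∀ᶠ z in 𝓝[>] a, z < f z := ha2
          filter_upwards [ha2', Ioo_mem_nhdsGT h] with z h1 h2
          rw [e, hb1 z (show z ≤ b from h2.2.le)]
          exact h1
      · subst h
        refine ⟨some a, fun z hz => ?_, ?_⟩
        · rw [e, hb1 z hz, ha1 z hz]
        · filter_upwards [hb2, hT.eventually ha2] with z h1 h2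
          rw [e]
          exact h1.trans h2
      · refine ⟨some b, fun z hz => ?_, ?_⟩
        · have hz' : z ≤ b := hz
          rw [e, hb1 z hz, ha1 z (show z ≤ a from hz'.trans h.le)]
        · show ∀ᶠ z in 𝓝[>] b, _
          have hb2' : ∀ᶠ z in 𝓝[>] b, z < g z := hb2
          have hT' : Tendsto g (𝓝[>] b) (𝓝[>] b) := hT
          filter_upwards [hb2', hT'.eventually (Ioo_mem_nhdsGT h)] with z h1 h2
          rw [e, ha1 (g z) (show g z ≤ a from h2.2.le)]
          exact h1

lemma Pos.conj {f : Hm} (hf : Pos f) (h : Hm) : Pos (h⁻¹ * f * h) := by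
  obtain ⟨a, ha1, ha2⟩ := hf
  have e : ∀ z, (h⁻¹ * f * h) z = (h⁻¹ : Hm) (f (h z)) := fun z => rfl
  have e2 : ∀ z, (h⁻¹ : Hm) (h z) = z := fun z => h.symm_apply_apply z
  have e3 : ∀ z, h ((h⁻¹ : Hm) z) = z := fun z => h.apply_symm_apply z
  refine ⟨a.map (h⁻¹ : Hm), ?_, ?_⟩
  · intro z hz
    cases a with
    | none => exact hz.elim
    | some a =>
      have hz' : z ≤ (h⁻¹ : Hm) a := hz
      have h1 : h z ≤ a := by
        have := h.monotone hz'
        rwa [e3] at this
      rw [e, ha1 (h z) h1, e2]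
  · have hT := tendsto_fl h (a.map (h⁻¹ : Hm))
    have h2 : (a.map (h⁻¹ : Hm)).map h = a := by
      cases a with
      | none => rfl
      | some a => rw [Option.map_some, Option.map_some, e3]
    rw [h2] at hT
    filter_upwards [hT.eventually ha2] with z h1
    rw [e]
    have h3 := (h⁻¹ : Hm).strictMono h1
    rwa [e2] at h3

/-- all germs are comparable with the identity -/
def Def (f : Hm) : Prop := f = 1 ∨ Pos f ∨ Pos f⁻¹

lemma pow_pos_of {x u : Hm} (hu : Pos u) (n : ℕ) :
    ∃ q : Hm, Pos q ∧ (x * u) ^ (n + 1) = x ^ (n + 1) * q := by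
  induction n with
  | zero => exact ⟨u, hu, by rw [zero_add, pow_one, pow_one]⟩
  | succ n ih =>
    obtain ⟨q, hq, h⟩ := ih
    refine ⟨x⁻¹ * q * x * u, (hq.conj x).mul hu, ?_⟩
    rw [pow_succ (x * u), h, pow_succ x (n + 1)]
    group

/-- **uniqueness of roots** -/
lemma root_unique {x y : Hm} (h : Def (x⁻¹ * y)) {l : ℕ} (hl : 0 < l) (hxy : x ^ l = y ^ l) :
    x = y := by
  obtain ⟨n, rfl⟩ := Nat.exists_eq_succ_of_ne_zero hl.ne'
  rcases h with h | h | h
  · exact (inv_mul_eq_one.1 h)
  · exfalso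
    obtain ⟨q, hq, h1⟩ := pow_pos_of (x := x) h n
    rw [mul_inv_cancel_left, ← hxy] at h1
    have h2 : q = 1 := by
      have := mul_left_cancel (h1.symm.trans (mul_one _).symm)
      exact this
    rw [h2] at hq
    exact not_pos_one hq
  · exfalso
    rw [mul_inv_rev, inv_inv] at h
    obtain ⟨q, hq, h1⟩ := pow_pos_of (x := y) h n
    rw [mul_inv_cancel_left, hxy] at h1
    have h2 : q = 1 := by
      have := mul_left_cancel (h1.symm.trans (mul_one _).symm)
      exact this
    rw [h2] at hq
    exact not_pos_one hq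

/-- a nonzero polynomial of degree at most two has no roots along `fl a` -/
lemma quad_ne {a : Option ℝ} {p q r : ℝ} (h : ¬ (p = 0 ∧ q = 0 ∧ r = 0)) :
    ∀ᶠ z in fl a, p * z ^ 2 + q * z + r ≠ 0 := by
  have hfin : {z : ℝ | p * z ^ 2 + q * z + r = 0}.Finite := by
    by_contra hc
    exact h (quad_zero hc)
  cases a with
  | none =>
    show ∀ᶠ z in atBot, _
    obtain ⟨b, hb⟩ := hfin.bddBelow
    filter_upwards [eventually_lt_atBot b] with z hz hc
    exact absurd (hb hc) (not_le.2 hz)
  | some a =>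
    show ∀ᶠ z in 𝓝[>] a, _
    have h1 : ({z : ℝ | p * z ^ 2 + q * z + r = 0} \ {a})ᶜ ∈ 𝓝 a :=
      (hfin.subset Set.sdiff_subset).isClosed.isOpen_compl.mem_nhds (by simp)
    filter_upwards [mem_nhdsWithin_of_mem_nhds h1, self_mem_nhdsWithin] with z hz1 hz2 hc
    exact hz1 ⟨hc, ne_of_gt hz2⟩

/-- a continuous function without zeros along `fl a` has constant sign -/
lemma sign_const {a : Option ℝ} {f : ℝ → ℝ} (hf : Continuous f) (h : ∀ᶠ z in fl a, f z ≠ 0) :
    (∀ᶠ z in fl a, 0 < f z) ∨ ∀ᶠ z in fl a, f z < 0 := by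
  have key : ∀ S : Set ℝ, IsPreconnected S → (∀ z ∈ S, f z ≠ 0) →
      (∀ z ∈ S, 0 < f z) ∨ ∀ z ∈ S, f z < 0 := by
    intro S hS hne
    by_contra hc
    push Not at hc
    obtain ⟨⟨z, hz, h1⟩, w, hw, h2⟩ := hc
    have h3 := hS.intermediate_value hz hw hf.continuousOn
    obtain ⟨t, ht, h4⟩ := h3 (show (0 : ℝ) ∈ Set.Icc (f z) (f w) from ⟨h1, h2⟩)
    exact hne t ht h4
  cases a with
  | none =>
    obtain ⟨b, hb⟩ := eventually_atBot.1 h
    rcases key (Set.Iic b) isPreconnected_Iic hb with h1 | h1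
    · left
      show ∀ᶠ z in atBot, _
      filter_upwards [eventually_le_atBot b] with z hz
      exact h1 z hz
    · right
      show ∀ᶠ z in atBot, _
      filter_upwards [eventually_le_atBot b] with z hz
      exact h1 z hz
  | some a =>
    obtain ⟨y, hy, hsub⟩ := (mem_nhdsGT_iff_exists_Ioo_subset).1 h
    rcases key (Set.Ioo a y) isPreconnected_Ioo hsub with h1 | h1
    · left
      show ∀ᶠ z in 𝓝[>] a, _
      filter_upwards [Ioo_mem_nhdsGT hy] with z hz
      exact h1 z hz
    · right
      show ∀ᶠ z in 𝓝[>] a, _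
      filter_upwards [Ioo_mem_nhdsGT hy] with z hz
      exact h1 z hz

variable {A : Subalgebra ℤ ℝ}

/-- germs of piecewise projective maps are comparable with the identity -/
lemma germ_cases {a : Option ℝ} {f : Hm} {N : Matrix (Fin 2) (Fin 2) A} (hN : IsUnit N.det)
    (hr : Rep (fl a) f N) : (∀ᶠ z in fl a, f z = z) ∨ (∀ᶠ z in fl a, z < f z) ∨
      ∀ᶠ z in fl a, f z < z := by
  by_cases h : (-(N 1 0 : ℝ)) = 0 ∧ (N 0 0 : ℝ) - N 1 1 = 0 ∧ (N 0 1 : ℝ) = 0
  · left
    obtain ⟨h1, h2, h3⟩ := h
    have g1 : N 1 0 = 0 := Subtype.ext (by simpa using h1)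
    have g2 : N 0 0 = N 1 1 := Subtype.ext (by linarith)
    have g3 : N 0 1 = 0 := Subtype.ext (by simpa using h3)
    apply hr.eventually_id g3 g1 g2
    intro hc
    apply hN.ne_zero
    rw [Matrix.det_fin_two, g3, g1, hc]
    simp
  · right
    have h1 := quad_ne (a := a) h
    have h2 : ∀ᶠ z in fl a, f z - z ≠ 0 := by
      filter_upwards [h1, hr] with z hz1 hz2 hc
      apply hz1
      have h3 : f z = z := sub_eq_zero.1 hc
      rw [h3] at hz2
      linear_combination -hz2
    rcases sign_const (f.continuous.sub continuous_id) h2 with h3 | h3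
    · left
      filter_upwards [h3] with z hz
      exact sub_pos.1 hz
    · right
      filter_upwards [h3] with z hz
      exact sub_neg.1 hz

/-- the first point of the support, with the identity before it -/
lemma exists_first' {g : Hm} (hg : g ≠ 1) : ∃ a : Option ℝ, (∀ z, below a z → g z = z) ∧
    a.map g = a ∧ ¬ ∀ᶠ z in fl a, g z = z := by
  by_cases h : ∀ᶠ z in fl none, g z = z
  · obtain ⟨b, hb⟩ := eventually_atBot.1 h
    let E : Set ℝ := {t | ∀ z ≤ t, g z = z}
    have hne : E.Nonempty := ⟨b, hb⟩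
    have hbd : BddAbove E := by
      by_contra hc
      apply hg
      ext z
      rw [not_bddAbove_iff] at hc
      obtain ⟨t, ht, hzt⟩ := hc z
      exact ht z hzt.le
    set s := sSup E with hs
    have hlt : ∀ z < s, g z = z := by
      intro z hz
      obtain ⟨t, ht, hzt⟩ := exists_lt_of_lt_csSup hne hz
      exact ht z hzt.le
    have hfix : g s = s := by
      have hcl : IsClosed {x : ℝ | g x = x} := isClosed_eq g.continuous continuous_id
      exact hcl.closure_subset_iff.2 (fun x (hx : x ∈ Set.Iio s) => hlt x hx)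
        (by rw [closure_Iio]; exact Set.mem_Iic.2 le_rfl)
    refine ⟨some s, ?_, by rw [Option.map_some, hfix], ?_⟩
    · intro z hz
      rcases lt_or_eq_of_le (show z ≤ s from hz) with h1 | h1
      · exact hlt z h1
      · rw [h1, hfix]
    intro hev
    obtain ⟨y, hy, hsub⟩ := (mem_nhdsGT_iff_exists_Ioo_subset).1 hev
    have hy' : s < y := hy
    have hmem : (s + y) / 2 ∈ E := by
      intro z hz
      rcases lt_trichotomy z s with h1 | h1 | h1
      · exact hlt z h1
      · rw [h1, hfix]
      · exact hsub ⟨h1, by linarith⟩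
    have := le_csSup hbd hmem
    linarith
  · exact ⟨none, fun z hz => hz.elim, rfl, h⟩

lemma def_of_isA {f : Hm} (hf : IsA A f) : Def f := by
  by_cases hf1 : f = 1
  · exact Or.inl hf1
  obtain ⟨a, ha, ham, hne⟩ := exists_first' hf1
  obtain ⟨N, hN, hr⟩ := hf a
  rcases germ_cases hN hr with h | h | h
  · exact absurd h hne
  · exact Or.inr (Or.inl ⟨a, ha, h⟩)
  · right
    right
    have e : ∀ z, (f⁻¹ : Hm) (f z) = z := fun z => f.symm_apply_apply z
    have e3 : ∀ z, f ((f⁻¹ : Hm) z) = z := fun z => f.apply_symm_apply z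
    refine ⟨a, ?_, ?_⟩
    · intro z hz
      conv_lhs => rw [← ha z hz]
      exact e z
    · have hinv : a.map (f⁻¹ : Hm) = a := by
        cases a with
        | none => rfl
        | some a =>
          rw [Option.map_some, Option.some_inj] at ham ⊢
          conv_lhs => rw [← ham]
          exact e a
      have hT := tendsto_fl f⁻¹ a
      rw [hinv] at hT
      filter_upwards [hT.eventually h] with z hz
      rwa [e3] at hz

variable {H : Type*} [Group H]

/-- roots are unique in groups of piecewise projective homeomorphisms -/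
theorem pp_root (ρ : H →* Hm) (h : ∀ x, PP (ρ x)) {x y : H} {l : ℕ} (hl : 0 < l)
    (hxy : x ^ l = y ^ l) : ρ x = ρ y := by
  classical
  let K : Subgroup H := Subgroup.closure {x, y}
  have : Group.FG K := (Group.fg_iff_subgroup_fg K).2
    ⟨{x, y}, by rw [Finset.coe_insert, Finset.coe_singleton]⟩
  obtain ⟨s, hs⟩ := exists_ring (ρ.comp K.subtype) (fun z => h z)
  have hx : x ∈ K := Subgroup.subset_closure (by simp)
  have hy : y ∈ K := Subgroup.subset_closure (by simp)
  have h1 := def_of_isA (hs (⟨x, hx⟩⁻¹ * ⟨y, hy⟩))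
  have h2 : (ρ.comp K.subtype) (⟨x, hx⟩⁻¹ * ⟨y, hy⟩) = (ρ x)⁻¹ * ρ y := by
    rw [map_mul, map_inv]
    rfl
  rw [h2] at h1
  apply root_unique h1 hl
  rw [← map_pow, ← map_pow, hxy]

/-- **Linear groups in characteristic zero**: for all but finitely many primes `p` the image of an
element is determined by its `p`-th power. -/
theorem lin_root [Group.FG H] {K : Type*} [Field K] [CharZero K] {N : ℕ} (φ : H →* GL (Fin N) K) :
    {p : ℕ | p.Prime ∧ ∃ x y : H, x ^ p = y ^ p ∧ φ x ≠ φ y}.Finite := by
  classical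
  obtain ⟨T, hT⟩ := Group.fg_def.1 (inferInstance : Group.FG H)
  let s : Finset K := T.biUnion fun t => Finset.univ.biUnion fun i : Fin N =>
    Finset.univ.biUnion fun j : Fin N => {(φ t).val i j, (φ t⁻¹).val i j}
  let R : Subalgebra ℤ K := Algebra.adjoin ℤ (s : Set K)
  have hR : Algebra.FiniteType ℤ R := by
    rw [← Subalgebra.fg_iff_finiteType]
    exact ⟨s, rfl⟩
  have hN : IsNoetherianRing R := Algebra.FiniteType.isNoetherianRing ℤ R
  have hent : ∀ h : H, ∀ i j, (φ h).val i j ∈ R := by
    apply Pool.Agent.H23R2.entries_mem φ (T : Set H) hT R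
    · intro t ht i j
      apply Algebra.subset_adjoin
      simp only [s, Finset.coe_biUnion, Set.mem_iUnion]
      exact ⟨t, ht, i, by simp, j, by simp, by simp⟩
    · intro t ht i j
      apply Algebra.subset_adjoin
      simp only [s, Finset.coe_biUnion, Set.mem_iUnion]
      exact ⟨t, ht, i, by simp, j, by simp, by simp⟩
  let ψ0 : H →* Matrix (Fin N) (Fin N) R :=
    { toFun := fun h => Matrix.of fun i j => ⟨(φ h).val i j, hent h i j⟩
      map_one' := by
        ext i j
        simp only [Matrix.of_apply, map_one, Units.val_one, Matrix.one_apply]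
        split_ifs <;> rfl
      map_mul' := by
        intro x y
        ext i j
        simp only [Matrix.of_apply, map_mul, Units.val_mul, Matrix.mul_apply]
        rw [AddSubmonoidClass.coe_finsetSum]
        rfl }
  let ψ : H →* (Matrix (Fin N) (Fin N) R)ˣ := ψ0.toHomUnits
  have hψ : ∀ x y : H, ψ x = ψ y → φ x = φ y := by
    intro x y hxy
    apply Units.ext
    ext i j
    have h1 : (ψ x).val i j = (ψ y).val i j := by rw [hxy]
    exact congrArg Subtype.val h1
  obtain ⟨m, hm⟩ := Ideal.exists_maximal R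
  obtain ⟨q, hq, hqm, hfin⟩ := residue_finite R m
  obtain ⟨E, hE0, hE⟩ := exists_exponent (n := Fin N) m q hqm hfin
  refine (Finset.finite_toSet (E * q).primeFactors).subset ?_
  rintro p ⟨hp, x, y, hxy, hne⟩
  rw [Finset.mem_coe, Nat.mem_primeFactors]
  refine ⟨hp, ?_, (Nat.mul_pos hE0 hq.pos).ne'⟩
  by_contra hnd
  have hpE : Nat.Coprime p (E * q) := (Nat.Prime.coprime_iff_not_dvd hp).2 hnd
  apply hne
  apply hψ
  have hroot := Pool.Agent.H23R2.roots_unique (H := ψ.range) ψ.range.subtype
    ψ.range.subtype_injective m hm.ne_top q E hE p hpE ⟨ψ x, x, rfl⟩ ⟨ψ y, y, rfl⟩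
    (Subtype.ext (by
      show ψ x ^ p = ψ y ^ p
      rw [← map_pow, ← map_pow, hxy]))
  exact congrArg Subtype.val hroot

/-- all but finitely many primes are good for a finitely generated torsion-free group which is
separated by finitely many piecewise projective actions and a representation in characteristic
zero -/
theorem good_primes [Group.FG H] (htf : ∀ g : H, ∀ m : ℕ, 0 < m → g ^ m = 1 → g = 1)
    {ι : Type*} [Finite ι] (ρ : ι → H →* Hm) (hρ : ∀ i x, PP (ρ i x))
    {K : Type*} [Field K] [CharZero K] {N : ℕ} (φ : H →* GL (Fin N) K)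
    (hφ : ∀ g : H, φ g = 1 → (∀ i, ρ i g = 1) → g = 1) :
    {p : ℕ | p.Prime ∧ ¬ Pool.Agent.H23R2.GoodPrime H p}.Finite := by
  have hf1 : (⋃ i : ι, {p : ℕ | p.Prime ∧ ∃ g : H, ρ i g ≠ 1 ∧
      ∀ k : ℕ, ∃ x : H, x ^ p ^ k = g}).Finite :=
    Set.finite_iUnion fun i => pp_bad (ρ i) fun x => hρ i x
  have hf2 := lin_bad φ
  have hf3 := lin_root φ
  refine ((hf1.union hf2).union (hf3.union (Set.finite_singleton 2))).subset ?_
  rintro p ⟨hp, hng⟩
  by_contra hcon
  apply hng
  rw [Set.mem_union, Set.mem_union, Set.mem_union] at hcon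
  push Not at hcon
  obtain ⟨⟨h1, h2⟩, h3, h4⟩ := hcon
  refine ⟨hp, fun h => h4 (by rw [h]; rfl), ?_, ?_⟩
  · intro x y hxy
    rw [← inv_mul_eq_one]
    apply hφ
    · have h5 : φ x = φ y := by
        by_contra hc
        exact h3 ⟨hp, x, y, hxy, hc⟩
      rw [map_mul, map_inv, h5, inv_mul_cancel]
    · intro i
      rw [map_mul, map_inv, pp_root (ρ i) (fun x => hρ i x) hp.pos hxy, inv_mul_cancel]
  · intro g hg
    by_contra hc
    push Not at hc
    have h5 : ∀ i, ρ i g = 1 := by
      intro i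
      by_contra hc2
      exact h1 (Set.mem_iUnion.2 ⟨i, hp, g, hc2, hc⟩)
    have h6 : ∃ E : ℕ, 0 < E ∧ φ g ^ E = 1 := by
      by_contra hc2
      push Not at hc2
      exact h2 ⟨hp, g, hc, hc2⟩
    obtain ⟨E, hE, h7⟩ := h6
    apply hg
    apply htf g E hE
    apply hφ
    · rw [map_pow, h7]
    · intro i
      rw [map_pow, h5 i, one_pow]

end Pool.Agent.Q91.PP
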