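import Pool.Agent.Q91.PP.Over

/-!
# Groups of piecewise projective homeomorphisms over a subring of the reals
-/

set_option autoImplicit false
set_option linter.unusedSectionVars false

namespace Pool.Agent.Q91.PP

open Filter Topology
open Pool.Agent.H23R2 (residue_finite exists_exponent eq_of_congr finite_inv_primes)

/-- `f` is piecewise projective over the subring `B`: there are finitely many invertible matrices
over `B` such that `f` is given by one of the corresponding maps `z ↦ (α z + β) / (γ z + δ)` near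
`-∞` and to the right of each point of the line. -/
def PPOver (B : Subring ℝ) (f : ℝ → ℝ) : Prop :=
  ∃ S : Finset (Matrix (Fin 2) (Fin 2) ℝ),
    (∀ M ∈ S, (∀ i j, M i j ∈ B) ∧ M.det ≠ 0 ∧ (M.det)⁻¹ ∈ B) ∧
    (∃ M ∈ S, ∃ b : ℝ, ∀ z < b, f z * (M 1 0 * z + M 1 1) = M 0 0 * z + M 0 1) ∧
    ∀ a : ℝ, ∃ M ∈ S, ∃ b > a, ∀ z, a < z → z < b →
      f z * (M 1 0 * z + M 1 1) = M 0 0 * z + M 0 1

lemma PPOver.pp {B : Subring ℝ} {f : ℝ → ℝ} (h : PPOver B f) : PP f := by
  obtain ⟨S, h1, h2, h3⟩ := h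
  exact ⟨S, fun M hM => (h1 M hM).2.1, h2, h3⟩

variable {H : Type*} [Group H]

lemma exists_ring_in {B : Subring ℝ} [Group.FG H] (ρ : H →* Hm) (h : ∀ x, PPOver B (ρ x)) :
    ∃ s : Finset ℝ, (s : Set ℝ) ⊆ B ∧ ∀ x : H, IsA (Algebra.adjoin ℤ (s : Set ℝ)) (ρ x) := by
  classical
  obtain ⟨T, hT⟩ := Group.fg_def.1 (inferInstance : Group.FG H)
  choose S hS1 hS2 hS3 using h
  let s : Finset ℝ := T.biUnion fun t => (S t).biUnion fun M =>
    insert (M.det)⁻¹ (Finset.univ.biUnion fun i : Fin 2 => Finset.univ.image fun j : Fin 2 => M i j)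
  refine ⟨s, ?_, ?_⟩
  · intro y hy
    rw [Finset.mem_coe, Finset.mem_biUnion] at hy
    obtain ⟨t, ht, hy⟩ := hy
    rw [Finset.mem_biUnion] at hy
    obtain ⟨M, hM, hy⟩ := hy
    rw [Finset.mem_insert, Finset.mem_biUnion] at hy
    rcases hy with rfl | ⟨i, _, hy⟩
    · exact (hS1 t M hM).2.2
    · obtain ⟨j, _, rfl⟩ := Finset.mem_image.1 hy
      exact (hS1 t M hM).1 i j
  have hT' : ∀ t ∈ T, IsA (Algebra.adjoin ℤ (s : Set ℝ)) (ρ t) := by
    intro t ht
    apply IsA.of_subset (fun M hM => (hS1 t M hM).2.1) (hS2 t) (hS3 t)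
    intro M hM
    constructor
    · intro i j
      apply Algebra.subset_adjoin
      rw [Finset.mem_coe, Finset.mem_biUnion]
      refine ⟨t, ht, ?_⟩
      rw [Finset.mem_biUnion]
      refine ⟨M, hM, ?_⟩
      apply Finset.mem_insert_of_mem
      rw [Finset.mem_biUnion]
      exact ⟨i, Finset.mem_univ _, Finset.mem_image.2 ⟨j, Finset.mem_univ _, rfl⟩⟩
    · apply Algebra.subset_adjoin
      rw [Finset.mem_coe, Finset.mem_biUnion]
      refine ⟨t, ht, ?_⟩
      rw [Finset.mem_biUnion]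
      exact ⟨M, hM, Finset.mem_insert_self _ _⟩
  intro x
  have hx : x ∈ Subgroup.closure (T : Set H) := by rw [hT]; trivial
  induction hx using Subgroup.closure_induction with
  | mem t ht => exact hT' t ht
  | one => rw [map_one]; exact IsA.one
  | mul x y _ _ hx hy => rw [map_mul]; exact hx.mul hy
  | inv x _ hx => rw [map_inv]; exact hx.inv

/-- there are no infinitely `p`-divisible elements if `p` is not invertible -/
theorem not_div_over {B : Subring ℝ} [Group.FG H] (ρ : H →* Hm) (h : ∀ x, PPOver B (ρ x))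
    {p : ℕ} (hp : 0 < p) (hpB : (p : ℝ)⁻¹ ∉ B) {g : H} (hg : ρ g ≠ 1)
    (hroot : ∀ k : ℕ, ∃ x : H, x ^ p ^ k = g) : False := by
  obtain ⟨s, hsB, hs⟩ := exists_ring_in ρ h
  have hle : ∀ y ∈ Algebra.adjoin ℤ (s : Set ℝ), y ∈ B := by
    intro y hy
    induction hy using Algebra.adjoin_induction with
    | mem x hx => exact hsB hx
    | algebraMap r => simp
    | add x y _ _ hx hy => exact B.add_mem hx hy
    | mul x y _ _ hx hy => exact B.mul_mem hx hy
  have hA : Algebra.FiniteType ℤ (Algebra.adjoin ℤ (s : Set ℝ)) := by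
    rw [← Subalgebra.fg_iff_finiteType]
    exact ⟨s, rfl⟩
  obtain ⟨a, ha, hnt⟩ := exists_first hg
  apply hnt
  apply trivial_germ hA hp (nonunit_of_notMem fun hc => hpB (hle _ hc)) ha
  intro k
  obtain ⟨x, hx⟩ := hroot k
  exact ⟨ρ x, by rw [← map_pow, hx], hs x a⟩

/-- residually piecewise projective over rings in which `p` is not invertible -/
def ResPP (p : ℕ) (G : Type*) [Group G] : Prop :=
  ∀ g : G, g ≠ 1 → ∃ (B : Subring ℝ) (ρ : G →* Hm), (p : ℝ)⁻¹ ∉ B ∧ (∀ x, PPOver B (ρ x)) ∧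
    ρ g ≠ 1

lemma ResPP.subgroup {p : ℕ} {G : Type*} [Group G] (h : ResPP p G) (K : Subgroup G) :
    ResPP p K := by
  intro g hg
  obtain ⟨B, ρ, h1, h2, h3⟩ := h g.1 (fun hc => hg (Subtype.ext hc))
  exact ⟨B, ρ.comp K.subtype, h1, fun x => h2 x, h3⟩

lemma ResPP.root {p : ℕ} {G : Type*} [Group G] (h : ResPP p G) {l : ℕ} (hl : 0 < l) {x y : G}
    (hxy : x ^ l = y ^ l) : x = y := by
  by_contra hne
  obtain ⟨B, ρ, -, h2, h3⟩ := h (x⁻¹ * y) (fun hc => hne (inv_mul_eq_one.1 hc))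
  apply h3
  rw [map_mul, map_inv, pp_root ρ (fun z => (h2 z).pp) hl hxy, inv_mul_cancel]

lemma ResPP.div {p : ℕ} {G : Type*} [Group G] [Group.FG G] (h : ResPP p G) (hp : 0 < p) {g : G}
    (hg : g ≠ 1) : ∃ k : ℕ, ∀ x : G, x ^ p ^ k ≠ g := by
  by_contra hcon
  push Not at hcon
  obtain ⟨B, ρ, h1, h2, h3⟩ := h g hg
  exact not_div_over ρ h2 hp h1 h3 hcon

end Pool.Agent.Q91.PP
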